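import Pool.Agent.PFD.StmtsD3

/-! PFD, row DVW: the derivation on `R1 [W]`. -/

set_option autoImplicit false

namespace Pool.Agent.PFD.H25

theorem dvw : D3.DvwStmt := by
  intro R R1 W E _ _ _ _ _ act ψ A v hA hv hact
  let vw : MonoidAlgebra R1 W →ₗ[R] MonoidAlgebra R1 W :=
    (MonoidAlgebra.coeffLinearEquiv R).symm.toLinearMap ∘ₗ
      (Finsupp.mapRange.linearMap v) ∘ₗ (MonoidAlgebra.coeffLinearEquiv R).toLinearMap
  have hs : ∀ w r, vw (MonoidAlgebra.single w r) = MonoidAlgebra.single w (v r) := by
    intro w r
    apply MonoidAlgebra.coeff_injective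
    show Finsupp.mapRange v (map_zero v) (MonoidAlgebra.single w r).coeff = _
    rw [MonoidAlgebra.coeff_single, Finsupp.mapRange_single, MonoidAlgebra.coeff_single]
  have h1 : v 1 = 0 := by
    have h := hv 1 1
    rw [mul_one, one_mul, mul_one] at h
    exact left_eq_add.mp h
  refine ⟨vw, hs, ?_, ?_, ?_⟩
  · intro a b
    induction a using MonoidAlgebra.induction_linear with
    | zero => simp
    | add f g hf hg =>
      rw [add_mul, map_add, hf, hg, map_add, add_mul, add_mul]
      abel
    | single w r =>
      induction b using MonoidAlgebra.induction_linear with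
      | zero => simp
      | add f g hf hg =>
        rw [mul_add, map_add, hf, hg, map_add, mul_add, mul_add]
        abel
      | single w' r' =>
        rw [MonoidAlgebra.single_mul_single, hs, hs, hs, MonoidAlgebra.single_mul_single,
          MonoidAlgebra.single_mul_single, hv, MonoidAlgebra.single_add]
  · intro w
    rw [hs, h1, MonoidAlgebra.single_zero]
  · intro e x
    induction x using MonoidAlgebra.induction_linear with
    | zero => simp
    | add f g hf hg => rw [map_add, map_add, hf, hg, map_add, map_add]
    | single w r => rw [hA, hs, hs, hA, hact]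

end Pool.Agent.PFD.H25
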