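import Pool.Agent.PFD.StmtsD1

/-! PFD, row KAP: the tensor `κ = ∑ b_i' b_k' ⊗ b_i b_k`. -/

set_option autoImplicit false

namespace Pool.Agent.PFD.H25

open Pool.Agent.PFC.B1

section bil

variable {R : Type} {M M' X : Type} [CommRing R] [AddCommGroup M] [Module R M]
    [AddCommGroup M'] [Module R M'] [AddCommGroup X] [Module R X] {F : M → M' → X}

theorem bil_zero1 (h : Bil R F) (b : M') : F 0 b = 0 := by
  have := h.s1 0 0 b
  rw [zero_smul, zero_smul] at this
  exact this

theorem bil_zero2 (h : Bil R F) (a : M) : F a 0 = 0 := by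
  have := h.s2 0 a 0
  rw [zero_smul, zero_smul] at this
  exact this

theorem bil_sum1 (h : Bil R F) {ι : Type} (s : Finset ι) (r : ι → R) (a : ι → M) (b : M') :
    F (∑ i ∈ s, r i • a i) b = ∑ i ∈ s, r i • F (a i) b := by
  classical
  induction s using Finset.induction_on with
  | empty => rw [Finset.sum_empty, Finset.sum_empty, bil_zero1 h]
  | insert x s hx ih => rw [Finset.sum_insert hx, Finset.sum_insert hx, h.a1, h.s1, ih]

theorem bil_sum2 (h : Bil R F) {ι : Type} (s : Finset ι) (r : ι → R) (a : M) (b : ι → M') :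
    F a (∑ i ∈ s, r i • b i) = ∑ i ∈ s, r i • F a (b i) := by
  classical
  induction s using Finset.induction_on with
  | empty => rw [Finset.sum_empty, Finset.sum_empty, bil_zero2 h]
  | insert x s hx ih => rw [Finset.sum_insert hx, Finset.sum_insert hx, h.a2, h.s2, ih]

end bil

section casimir

variable {R B I X : Type} [CommRing R] [Ring B] [Algebra R B] [Fintype I]
    [AddCommGroup X] [Module R X] (c : FS R B I) {F : B → B → X}

theorem m1 (h : Bil R F) (x : B) :
    ∑ i, F (x * c.b i) (c.b' i) = ∑ i, F (c.b i) (c.b' i * x) := by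
  have e1 : ∀ i, F (x * c.b i) (c.b' i) =
      ∑ k, c.lam (c.b' k * (x * c.b i)) • F (c.b k) (c.b' i) := by
    intro i
    rw [← bil_sum1 h, c.h1]
  have e2 : ∀ k, F (c.b k) (c.b' k * x) =
      ∑ i, c.lam (c.b' k * (x * c.b i)) • F (c.b k) (c.b' i) := by
    intro k
    have : c.b' k * x = ∑ i, c.lam (c.b' k * (x * c.b i)) • c.b' i := by
      conv_lhs => rw [← c.h2 (c.b' k * x)]
      refine Finset.sum_congr rfl fun i _ => ?_
      rw [mul_assoc]
    rw [this, bil_sum2 h]
  rw [Finset.sum_congr rfl fun i _ => e1 i, Finset.sum_congr rfl fun i _ => e2 i,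
    Finset.sum_comm]

theorem m2 (cs : ∀ x y, c.lam (x * y) = c.lam (y * x)) (h : Bil R F) (x : B) :
    ∑ i, F (c.b i * x) (c.b' i) = ∑ i, F (c.b i) (x * c.b' i) := by
  have e1 : ∀ i, F (c.b i * x) (c.b' i) =
      ∑ k, c.lam (c.b' k * (c.b i * x)) • F (c.b k) (c.b' i) := by
    intro i
    rw [← bil_sum1 h, c.h1]
  have e2 : ∀ k, F (c.b k) (x * c.b' k) =
      ∑ i, c.lam (c.b' k * (c.b i * x)) • F (c.b k) (c.b' i) := by
    intro k
    have : x * c.b' k = ∑ i, c.lam (c.b' k * (c.b i * x)) • c.b' i := by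
      conv_lhs => rw [← c.h2 (x * c.b' k)]
      refine Finset.sum_congr rfl fun i _ => ?_
      congr 1
      rw [mul_assoc, cs, mul_assoc]
    rw [this, bil_sum2 h]
  rw [Finset.sum_congr rfl fun i _ => e1 i, Finset.sum_congr rfl fun i _ => e2 i,
    Finset.sum_comm]

theorem m3 (cs : ∀ x y, c.lam (x * y) = c.lam (y * x)) (h : Bil R F) :
    ∑ i, F (c.b i) (c.b' i) = ∑ i, F (c.b' i) (c.b i) := by
  have e1 : ∀ k, F (c.b k) (c.b' k) = ∑ i, c.lam (c.b' k * c.b' i) • F (c.b k) (c.b i) := by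
    intro k
    have : c.b' k = ∑ i, c.lam (c.b' k * c.b' i) • c.b i := by
      conv_lhs => rw [← c.h1 (c.b' k)]
      refine Finset.sum_congr rfl fun i _ => ?_
      rw [cs]
    conv_lhs => rw [this]
    rw [bil_sum2 h]
  have e2 : ∀ i, F (c.b' i) (c.b i) = ∑ k, c.lam (c.b' k * c.b' i) • F (c.b k) (c.b i) := by
    intro i
    rw [← bil_sum1 h, c.h1]
  rw [Finset.sum_congr rfl fun i _ => e1 i, Finset.sum_congr rfl fun i _ => e2 i,
    Finset.sum_comm]

theorem m5 (h : Bil R F) (v : B →ₗ[R] B) (De : B) (der : ∀ a b, v (a * b) = v a * b + a * v b)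
    (div : ∀ a, c.lam (v a) = - c.lam (a * De)) :
    ∑ i, F (c.b i) (v (c.b' i)) = - ∑ i, F (v (c.b i) + c.b i * De) (c.b' i) := by
  have e1 : ∀ k, F (c.b k) (v (c.b' k)) =
      ∑ i, (- c.lam (c.b' k * (v (c.b i) + c.b i * De))) • F (c.b k) (c.b' i) := by
    intro k
    have : v (c.b' k) = ∑ i, (- c.lam (c.b' k * (v (c.b i) + c.b i * De))) • c.b' i := by
      conv_lhs => rw [← c.h2 (v (c.b' k))]
      refine Finset.sum_congr rfl fun i _ => ?_
      congr 1
      have h1 := div (c.b' k * c.b i)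
      rw [der, map_add] at h1
      rw [mul_add, map_add, ← mul_assoc (c.b' k) (c.b i) De]
      linear_combination h1
    rw [this, bil_sum2 h]
  have e2 : ∀ i, F (v (c.b i) + c.b i * De) (c.b' i) =
      ∑ k, c.lam (c.b' k * (v (c.b i) + c.b i * De)) • F (c.b k) (c.b' i) := by
    intro i
    rw [← bil_sum1 h, c.h1]
  rw [Finset.sum_congr rfl fun i _ => e1 i, Finset.sum_congr rfl fun i _ => e2 i,
    Finset.sum_comm, ← Finset.sum_neg_distrib]
  refine Finset.sum_congr rfl fun i _ => ?_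
  rw [← Finset.sum_neg_distrib]
  refine Finset.sum_congr rfl fun k _ => ?_
  rw [neg_smul]

end casimir

theorem kap : KapStmt := by
  intro R B A I J N X _ _ _ _ _ _ _ _ _ _ D F h
  set c := D.c with hc
  have cs := D.cs
  have K1 : ∀ G : B → B → X, Bil R G →
      ∑ i, ∑ k, G (c.b' i * c.b' k) (c.b i * c.b k) =
        ∑ i, ∑ k, G (c.b i * c.b k) (c.b' i * c.b' k) := by
    intro G hG
    have s1 : ∑ i, ∑ k, G (c.b' i * c.b' k) (c.b i * c.b k) =
        ∑ i, ∑ k, G (c.b i * c.b' k) (c.b' i * c.b k) := by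
      rw [Finset.sum_comm]
      rw [Finset.sum_comm (f := fun i k => G (c.b i * c.b' k) (c.b' i * c.b k))]
      refine Finset.sum_congr rfl fun k _ => ?_
      refine (m3 c cs (F := fun p q => G (p * c.b' k) (q * c.b k)) ?_).symm
      refine ⟨?_, ?_, ?_, ?_⟩ <;> intros <;>
        simp only [add_mul, hG.a1, hG.a2, hG.s1, hG.s2, smul_mul_assoc]
    rw [s1]
    refine Finset.sum_congr rfl fun i _ => ?_
    refine (m3 c cs (F := fun p q => G (c.b i * p) (c.b' i * q)) ?_).symm
    refine ⟨?_, ?_, ?_, ?_⟩ <;> intros <;>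
      simp only [mul_add, hG.a1, hG.a2, hG.s1, hG.s2, mul_smul_comm]
  have K4 : ∀ G : B → B → X, Bil R G → ∀ z, (∀ a, z * a = a * z) →
      ∑ i, ∑ k, G (z * (c.b' i * c.b' k)) (c.b i * c.b k) =
      ∑ i, ∑ k, G (c.b' i * c.b' k) (z * (c.b i * c.b k)) := by
    intro G hG z hz
    have b1 : Bil R (fun a b => G (z * a) b) := by
      refine ⟨?_, ?_, ?_, ?_⟩ <;> intros <;>
        simp only [mul_add, hG.a1, hG.a2, hG.s1, hG.s2, mul_smul_comm]
    have b2 : Bil R (fun a b => G a (z * b)) := by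
      refine ⟨?_, ?_, ?_, ?_⟩ <;> intros <;>
        simp only [mul_add, hG.a1, hG.a2, hG.s1, hG.s2, mul_smul_comm]
    rw [K1 _ b1, K1 _ b2]
    rw [Finset.sum_comm]
    rw [Finset.sum_comm (f := fun i k => G (c.b i * c.b k) (z * (c.b' i * c.b' k)))]
    refine Finset.sum_congr rfl fun k _ => ?_
    have b3 : Bil R (fun p q => G (p * c.b k) (q * c.b' k)) := by
      refine ⟨?_, ?_, ?_, ?_⟩ <;> intros <;>
        simp only [add_mul, hG.a1, hG.a2, hG.s1, hG.s2, smul_mul_assoc]
    have h1 := m1 c b3 z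
    calc ∑ i, G (z * (c.b i * c.b k)) (c.b' i * c.b' k)
        = ∑ i, G (z * c.b i * c.b k) (c.b' i * c.b' k) := by
          refine Finset.sum_congr rfl fun i _ => ?_
          rw [mul_assoc]
      _ = ∑ i, G (c.b i * c.b k) (c.b' i * z * c.b' k) := h1
      _ = ∑ i, G (c.b i * c.b k) (z * (c.b' i * c.b' k)) := by
          refine Finset.sum_congr rfl fun i _ => ?_
          rw [← hz (c.b' i), mul_assoc]
  refine ⟨K1 F h, ?_, ?_, K4 F h, ?_⟩
  · intro x
    have b1 : Bil R (fun a b => F (x * a) b) := by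
      refine ⟨?_, ?_, ?_, ?_⟩ <;> intros <;>
        simp only [mul_add, h.a1, h.a2, h.s1, h.s2, mul_smul_comm]
    have b2 : Bil R (fun a b => F (a * x) b) := by
      refine ⟨?_, ?_, ?_, ?_⟩ <;> intros <;>
        simp only [add_mul, h.a1, h.a2, h.s1, h.s2, smul_mul_assoc]
    rw [K1 _ b1, K1 _ b2]
    have s1 : ∑ i, ∑ k, F (x * (c.b i * c.b k)) (c.b' i * c.b' k) =
        ∑ i, ∑ k, F (c.b i * c.b k) (c.b' i * x * c.b' k) := by
      rw [Finset.sum_comm]
      rw [Finset.sum_comm (f := fun i k => F (c.b i * c.b k) (c.b' i * x * c.b' k))]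
      refine Finset.sum_congr rfl fun k _ => ?_
      have b3 : Bil R (fun p q => F (p * c.b k) (q * c.b' k)) := by
        refine ⟨?_, ?_, ?_, ?_⟩ <;> intros <;>
          simp only [add_mul, h.a1, h.a2, h.s1, h.s2, smul_mul_assoc]
      have h1 := m1 c b3 x
      rw [← h1]
      refine Finset.sum_congr rfl fun i _ => ?_
      rw [mul_assoc]
    rw [s1]
    refine Finset.sum_congr rfl fun i _ => ?_
    have b3 : Bil R (fun p q => F (c.b i * p) (c.b' i * q)) := by
      refine ⟨?_, ?_, ?_, ?_⟩ <;> intros <;>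
        simp only [mul_add, h.a1, h.a2, h.s1, h.s2, mul_smul_comm]
    have h1 := m2 c cs b3 x
    calc ∑ k, F (c.b i * c.b k) (c.b' i * x * c.b' k)
        = ∑ k, F (c.b i * c.b k) (c.b' i * (x * c.b' k)) := by
          refine Finset.sum_congr rfl fun k _ => ?_
          rw [mul_assoc]
      _ = ∑ k, F (c.b i * (c.b k * x)) (c.b' i * c.b' k) := h1.symm
      _ = _ := by
          refine Finset.sum_congr rfl fun k _ => ?_
          rw [mul_assoc]
  · intro x
    have b1 : Bil R (fun a b => F a (x * b)) := by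
      refine ⟨?_, ?_, ?_, ?_⟩ <;> intros <;>
        simp only [mul_add, h.a1, h.a2, h.s1, h.s2, mul_smul_comm]
    have b2 : Bil R (fun a b => F a (b * x)) := by
      refine ⟨?_, ?_, ?_, ?_⟩ <;> intros <;>
        simp only [add_mul, h.a1, h.a2, h.s1, h.s2, smul_mul_assoc]
    rw [K1 _ b1, K1 _ b2]
    have s1 : ∑ i, ∑ k, F (c.b i * c.b k) (c.b' i * c.b' k * x) =
        ∑ i, ∑ k, F (c.b i * (x * c.b k)) (c.b' i * c.b' k) := by
      refine Finset.sum_congr rfl fun i _ => ?_
      have b3 : Bil R (fun p q => F (c.b i * p) (c.b' i * q)) := by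
        refine ⟨?_, ?_, ?_, ?_⟩ <;> intros <;>
          simp only [mul_add, h.a1, h.a2, h.s1, h.s2, mul_smul_comm]
      have h1 := m1 c b3 x
      rw [h1]
      refine Finset.sum_congr rfl fun k _ => ?_
      rw [mul_assoc]
    rw [s1]
    rw [Finset.sum_comm]
    rw [Finset.sum_comm (f := fun i k => F (c.b i * (x * c.b k)) (c.b' i * c.b' k))]
    refine Finset.sum_congr rfl fun k _ => ?_
    have b3 : Bil R (fun p q => F (p * c.b k) (q * c.b' k)) := by
      refine ⟨?_, ?_, ?_, ?_⟩ <;> intros <;>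
        simp only [add_mul, h.a1, h.a2, h.s1, h.s2, smul_mul_assoc]
    have h1 := m2 c cs b3 x
    calc ∑ i, F (c.b i * c.b k) (x * (c.b' i * c.b' k))
        = ∑ i, F (c.b i * c.b k) (x * c.b' i * c.b' k) := by
          refine Finset.sum_congr rfl fun i _ => ?_
          rw [mul_assoc x]
      _ = ∑ i, F (c.b i * x * c.b k) (c.b' i * c.b' k) := h1.symm
      _ = _ := by
          refine Finset.sum_congr rfl fun i _ => ?_
          rw [mul_assoc (c.b i)]
  · intro v De hv
    -- the sum over the first index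
    have p1 : ∑ i, ∑ k, F (v (c.b' i) * c.b' k) (c.b i * c.b k) +
        ∑ i, ∑ k, F (c.b' i * c.b' k) (v (c.b i) * c.b k) =
        - ∑ i, ∑ k, F (De * (c.b' i * c.b' k)) (c.b i * c.b k) := by
      rw [K4 F h De hv.cen]
      rw [Finset.sum_comm]
      rw [Finset.sum_comm (f := fun i k => F (c.b' i * c.b' k) (v (c.b i) * c.b k))]
      rw [Finset.sum_comm (f := fun i k => F (c.b' i * c.b' k) (De * (c.b i * c.b k)))]
      rw [← Finset.sum_add_distrib, ← Finset.sum_neg_distrib]
      refine Finset.sum_congr rfl fun k _ => ?_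
      have b3 : Bil R (fun p q => F (q * c.b' k) (p * c.b k)) := by
        refine ⟨?_, ?_, ?_, ?_⟩ <;> intros <;>
          simp only [add_mul, h.a1, h.a2, h.s1, h.s2, smul_mul_assoc]
      have h1 := m5 c b3 v De hv.der hv.div
      have h1' : ∑ i, F (v (c.b' i) * c.b' k) (c.b i * c.b k) =
          - ∑ i, F (c.b' i * c.b' k) ((v (c.b i) + c.b i * De) * c.b k) := h1
      rw [h1']
      have h2 : ∑ i, F (c.b' i * c.b' k) ((v (c.b i) + c.b i * De) * c.b k) =
          ∑ i, F (c.b' i * c.b' k) (v (c.b i) * c.b k) +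
          ∑ i, F (c.b' i * c.b' k) (De * (c.b i * c.b k)) := by
        rw [← Finset.sum_add_distrib]
        refine Finset.sum_congr rfl fun i _ => ?_
        rw [add_mul, h.a2, ← hv.cen (c.b i), mul_assoc De]
      rw [h2]
      abel
    have p2 : ∑ i, ∑ k, F (c.b' i * v (c.b' k)) (c.b i * c.b k) +
        ∑ i, ∑ k, F (c.b' i * c.b' k) (c.b i * v (c.b k)) =
        - ∑ i, ∑ k, F (De * (c.b' i * c.b' k)) (c.b i * c.b k) := by
      rw [K4 F h De hv.cen]
      rw [← Finset.sum_add_distrib, ← Finset.sum_neg_distrib]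
      refine Finset.sum_congr rfl fun i _ => ?_
      have b3 : Bil R (fun p q => F (c.b' i * q) (c.b i * p)) := by
        refine ⟨?_, ?_, ?_, ?_⟩ <;> intros <;>
          simp only [mul_add, h.a1, h.a2, h.s1, h.s2, mul_smul_comm]
      have h1 := m5 c b3 v De hv.der hv.div
      have h1' : ∑ k, F (c.b' i * v (c.b' k)) (c.b i * c.b k) =
          - ∑ k, F (c.b' i * c.b' k) (c.b i * (v (c.b k) + c.b k * De)) := h1
      rw [h1']
      have h2 : ∑ k, F (c.b' i * c.b' k) (c.b i * (v (c.b k) + c.b k * De)) =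
          ∑ k, F (c.b' i * c.b' k) (c.b i * v (c.b k)) +
          ∑ k, F (c.b' i * c.b' k) (De * (c.b i * c.b k)) := by
        rw [← Finset.sum_add_distrib]
        refine Finset.sum_congr rfl fun k _ => ?_
        rw [mul_add, h.a2, hv.cen (c.b i * c.b k), mul_assoc (c.b i)]
      rw [h2]
      abel
    have q1 : ∑ i, ∑ k, F (v (c.b' i * c.b' k)) (c.b i * c.b k) =
        ∑ i, ∑ k, F (v (c.b' i) * c.b' k) (c.b i * c.b k) +
        ∑ i, ∑ k, F (c.b' i * v (c.b' k)) (c.b i * c.b k) := by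
      rw [← Finset.sum_add_distrib]
      refine Finset.sum_congr rfl fun i _ => ?_
      rw [← Finset.sum_add_distrib]
      refine Finset.sum_congr rfl fun k _ => ?_
      rw [hv.der, h.a1]
    have q2 : ∑ i, ∑ k, F (c.b' i * c.b' k) (v (c.b i * c.b k)) =
        ∑ i, ∑ k, F (c.b' i * c.b' k) (v (c.b i) * c.b k) +
        ∑ i, ∑ k, F (c.b' i * c.b' k) (c.b i * v (c.b k)) := by
      rw [← Finset.sum_add_distrib]
      refine Finset.sum_congr rfl fun i _ => ?_
      rw [← Finset.sum_add_distrib]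
      refine Finset.sum_congr rfl fun k _ => ?_
      rw [hv.der, h.a2]
    rw [q1, q2, two_smul, neg_add]
    nth_rewrite 1 [← p1]
    rw [← p2]
    abel

end Pool.Agent.PFD.H25
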